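import Mathlib
import Pool.Agent.Lib.helper29.NearInt

namespace Pool.Agent.Results.MP_af7c6a_co.Superlinear

open Filter Pool.Agent.Lib.H29.NearInt

/-- `maxCount N X δ` is the largest `n` for which there are `n` points in a closed `N`-ball of
radius `X` all of whose mutual `N`-distances are at distance at least `δ` from the nearest
integer. -/
noncomputable def maxCount {d : ℕ} (N : (Fin d → ℝ) → ℝ) (X δ : ℝ) : ℕ :=
  sSup {n : ℕ | ∃ (c : Fin d → ℝ) (p : Fin n → Fin d → ℝ), (∀ i, N (p i - c) ≤ X) ∧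
    ∀ i j, i ≠ j → δ ≤ |N (p i - p j) - (round (N (p i - p j)) : ℝ)|}

theorem result : ∃ (d : ℕ) (δ : ℝ) (N : (Fin d → ℝ) → ℝ), 1 ≤ d ∧ 0 < δ ∧ δ < 1 / 2 ∧
    (∀ v, 0 ≤ N v) ∧ (∀ v, N v = 0 ↔ v = 0) ∧ (∀ (a : ℝ) v, N (a • v) = |a| * N v) ∧
    (∀ v w, N (v + w) ≤ N v + N w) ∧
    Tendsto (fun X : ℝ => (maxCount N X δ : ℝ) / X) atTop atTop := by
  have hfin : Module.finrank ℝ (Fin 8 → ℝ) = Module.finrank ℝ E := by
    rw [(WithLp.linearEquiv 2 ℝ ((Fin 4 → ℝ) × (Fin 4 → ℝ))).finrank_eq]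
    simp
  let φ : (Fin 8 → ℝ) ≃ₗ[ℝ] E := LinearEquiv.ofFinrankEq _ _ hfin
  refine ⟨8, 1 / 54, fun v => ‖φ v‖, by norm_num, by norm_num, by norm_num,
    fun v => norm_nonneg _, fun v => by simp, fun a v => by simp [norm_smul],
    fun v w => by simpa only [map_add] using norm_add_le _ _, ?_⟩
  have hlow : ∀ (L : ℕ) (X : ℝ), 9 ^ L ≤ X → 16 ^ L ≤ maxCount (fun v => ‖φ v‖) X (1 / 54) := by
    intro L X hX
    refine le_csSup ?_ ?_
    · obtain ⟨K, hK⟩ := packing (F := E) X (1 / 54) (by norm_num)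
      refine ⟨K, ?_⟩
      rintro n ⟨c, p, hp, hsep⟩
      refine hK n (fun i => φ (p i - c)) hp (fun i j hij => ?_)
      have h1 := hsep i j hij
      have h2 : φ (p i - c) - φ (p j - c) = φ (p i - p j) := by
        rw [← map_sub]; congr 1; abel
      rw [h2]
      have h3 := round_le (‖φ (p i - p j)‖) 0
      simp only [Int.cast_zero, sub_zero, abs_norm] at h3
      exact h1.trans h3
    · have hcard : Fintype.card (Fin 4 → Fin L → Bool) = 16 ^ L := by
        simp only [Fintype.card_pi, Fintype.card_bool, Finset.prod_const, Finset.card_univ,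
          Fintype.card_fin]
        rw [← pow_mul, mul_comm, pow_mul]; norm_num
      let e := (Fintype.equivFinOfCardEq hcard).symm
      refine ⟨0, fun i => φ.symm (q (e i)), fun i => ?_, fun i j hij => ?_⟩
      · simpa using (q_norm (e i)).trans hX
      · have : φ (φ.symm (q (e i)) - φ.symm (q (e j))) = q (e i) - q (e j) := by simp
        simp only [this]
        exact q_dist _ _ (fun h => hij (e.injective h)) _
  rw [tendsto_atTop]
  intro K
  obtain ⟨L0, hL0⟩ := pow_unbounded_of_one_lt (9 * K) (by norm_num : (1 : ℝ) < 16 / 9)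
  filter_upwards [eventually_ge_atTop ((9 : ℝ) ^ L0)] with X hX
  have hX1 : (1 : ℝ) ≤ X := le_trans (one_le_pow₀ (by norm_num)) hX
  obtain ⟨L, hL1, hL2⟩ := exists_nat_pow_near hX1 (by norm_num : (1 : ℝ) < 9)
  have hLL : L0 ≤ L := by
    have := lt_of_le_of_lt hX hL2
    have := (pow_lt_pow_iff_right₀ (by norm_num : (1 : ℝ) < 9)).1 this
    omega
  have h1 : ((16 ^ L : ℕ) : ℝ) ≤ maxCount (fun v => ‖φ v‖) X (1 / 54) := by
    exact_mod_cast hlow L X hL1
  have h2 : (16 / 9 : ℝ) ^ L0 ≤ (16 / 9) ^ L := pow_le_pow_right₀ (by norm_num) hLL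
  have h3 : ((16 ^ L : ℕ) : ℝ) = (16 / 9) ^ L * 9 ^ L := by
    rw [← mul_pow]; norm_num
  rw [le_div_iff₀ (by linarith)]
  have hp : (0 : ℝ) < 9 ^ L := by positivity
  rw [pow_succ] at hL2
  rcases le_or_gt K 0 with hK | hK
  · have : K * X ≤ 0 := mul_nonpos_of_nonpos_of_nonneg hK (by linarith)
    exact this.trans (Nat.cast_nonneg _)
  · have h4 : K * X ≤ K * (9 ^ L * 9) := mul_le_mul_of_nonneg_left hL2.le hK.le
    have h5 : 9 * K * 9 ^ L ≤ (16 / 9) ^ L * 9 ^ L :=
      mul_le_mul_of_nonneg_right (by linarith) hp.le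
    linarith

end Pool.Agent.Results.MP_af7c6a_co.Superlinear
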